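import Mathlib
import Pool.Agent.K1H93.Flat

set_option autoImplicit false

/-!
# MP_69dca4_nt: exponential sums with Liouville (or any bounded) coefficients are not flat from below

For every sequence `f` of complex numbers with `|f n| ≤ 1` and `f 1 ≠ 0` the minimum over `θ` of
`|∑_{n ≤ N} f n e(n θ)|` does not tend to infinity with `N`.  Idea: if all these minima exceed `1` from some
`N` on, then by the theorem of Rouché the number of the zeros of `∑_{n ≤ N} f n z^n` in the unit disc does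
not depend on `N`; as the nonzero ones are bounded away from `0`, Jensen's formula bounds the mean of
`log |∑_{n ≤ N} f n e(n θ)|`.
-/

namespace Pool.Agent.Results.MP_69dca4_nt.NeverFlat

open Filter Topology Complex

/-- The exponential sum `S_N(θ) = ∑_{n = 1}^N f(n) e(n θ)` of a sequence `f`. -/
noncomputable def expSum (f : ℕ → ℂ) (N : ℕ) (θ : ℝ) : ℂ :=
  ∑ n ∈ Finset.Icc 1 N, f n * Complex.exp (2 * Real.pi * Complex.I * n * θ)

/-- `m(N)`, the minimum over `θ` of `|S_N(θ)|`. -/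
noncomputable def minAbs (f : ℕ → ℂ) (N : ℕ) : ℝ := ⨅ θ : ℝ, ‖expSum f N θ‖

theorem expSum_eq (f : ℕ → ℂ) (N : ℕ) (θ : ℝ) :
    expSum f N θ = Complex.exp (2 * Real.pi * Complex.I * θ) *
      (Pool.Agent.K1H93.Flat.Q f N).eval (Complex.exp (2 * Real.pi * Complex.I * θ)) := by
  rw [Pool.Agent.K1H93.Flat.eval_Q, Finset.mul_sum]
  unfold expSum
  rw [show Finset.Icc 1 N = Finset.Ico 1 (N + 1) from rfl, Finset.sum_Ico_eq_sum_range, Nat.add_sub_cancel]
  apply Finset.sum_congr rfl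
  intro n _
  rw [add_comm 1 n, mul_left_comm, ← pow_succ', ← Complex.exp_nat_mul]
  congr 2
  push_cast
  ring

theorem norm_expSum (f : ℕ → ℂ) (N : ℕ) (θ : ℝ) :
    ‖expSum f N θ‖ =
      ‖(Pool.Agent.K1H93.Flat.Q f N).eval (Complex.exp (2 * Real.pi * Complex.I * θ))‖ := by
  rw [expSum_eq, norm_mul]
  have : ‖Complex.exp (2 * Real.pi * Complex.I * θ)‖ = 1 := by
    rw [Complex.norm_exp]
    simp
  rw [this, one_mul]

theorem minAbs_nonneg (f : ℕ → ℂ) (N : ℕ) : 0 ≤ minAbs f N := Real.iInf_nonneg fun _ => norm_nonneg _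

theorem minAbs_le (f : ℕ → ℂ) (N : ℕ) (θ : ℝ) : minAbs f N ≤ ‖expSum f N θ‖ :=
  ciInf_le ⟨0, by rintro _ ⟨θ, rfl⟩; exact norm_nonneg _⟩ θ

theorem freq (f : ℕ → ℂ) (hf : ∀ n, ‖f n‖ ≤ 1) (h1 : f 1 ≠ 0) :
    ∃ C : ℝ, ∃ᶠ N in atTop, minAbs f N ≤ C := by
  obtain ⟨C, hC⟩ := Pool.Agent.K1H93.Flat.main f hf h1
  refine ⟨C, ?_⟩
  rw [frequently_atTop]
  intro N₀
  obtain ⟨N, hN, z, hz, h⟩ := hC N₀
  refine ⟨N, hN, ?_⟩
  obtain ⟨θ, hθ⟩ : ∃ θ : ℝ, Complex.exp (2 * Real.pi * Complex.I * θ) = z := by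
    refine ⟨z.arg / (2 * Real.pi), ?_⟩
    have h2 : (2 * Real.pi * Complex.I * ((z.arg / (2 * Real.pi) : ℝ) : ℂ)) = z.arg * Complex.I := by
      push_cast
      have : (Real.pi : ℂ) ≠ 0 := by exact_mod_cast Real.pi_ne_zero
      field_simp
    rw [h2]
    have h3 := Complex.norm_mul_exp_arg_mul_I z
    rw [hz] at h3
    simpa using h3
  have h4 := minAbs_le f N θ
  rw [norm_expSum, hθ] at h4
  exact h4.trans h

theorem liminf_zero (f : ℕ → ℂ) (hf : ∀ n, ‖f n‖ ≤ 1) (h1 : f 1 ≠ 0) :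
    liminf (fun N : ℕ => minAbs f N / √(N : ℝ)) atTop = 0 := by
  obtain ⟨C, hC⟩ := freq f hf h1
  have hbdd : IsBoundedUnder (· ≥ ·) atTop (fun N : ℕ => minAbs f N / √(N : ℝ)) :=
    ⟨0, by
      rw [eventually_map]
      exact Eventually.of_forall fun N => div_nonneg (minAbs_nonneg _ _) (Real.sqrt_nonneg _)⟩
  have hfr : ∀ ε : ℝ, 0 < ε → ∃ᶠ N : ℕ in atTop, minAbs f N / √(N : ℝ) ≤ ε := by
    intro ε hε
    have hlim : Tendsto (fun N : ℕ => √(N : ℝ)) atTop atTop :=
      Real.tendsto_sqrt_atTop.comp tendsto_natCast_atTop_atTop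
    have hev : ∀ᶠ N : ℕ in atTop, (|C| + 1) / ε ≤ √(N : ℝ) := hlim.eventually_ge_atTop _
    refine (hC.and_eventually hev).mono ?_
    rintro N ⟨h2, h3⟩
    have h4 : 0 < √(N : ℝ) := lt_of_lt_of_le (by positivity) h3
    rw [div_le_iff₀ hε] at h3
    rw [div_le_iff₀ h4]
    have := le_abs_self C
    linarith
  apply le_antisymm
  · apply le_of_forall_pos_le_add
    intro ε hε
    rw [zero_add]
    exact liminf_le_of_frequently_le (hfr ε hε) hbdd
  · apply le_liminf_of_le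
    · exact IsCoboundedUnder.of_frequently_le (hfr 1 one_pos)
    · exact Eventually.of_forall fun N => div_nonneg (minAbs_nonneg _ _) (Real.sqrt_nonneg _)

/-- **The Liouville function is not flat from below:** `liminf m(N) / √N = 0`.  Moreover `m(N)` does not
even tend to infinity, and the same is true for every complex sequence with `|f n| ≤ 1`, `f 1 ≠ 0` in
place of the Liouville function. -/
theorem result :
    liminf (fun N : ℕ => minAbs (fun n => (ArithmeticFunction.liouville n : ℂ)) N / √(N : ℝ)) atTop = 0 ∧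
      ∀ f : ℕ → ℂ, (∀ n, ‖f n‖ ≤ 1) → f 1 ≠ 0 → ∃ C : ℝ, ∃ᶠ N in atTop, minAbs f N ≤ C := by
  refine ⟨liminf_zero _ ?_ ?_, freq⟩
  · intro n
    rcases eq_or_ne n 0 with rfl | hn
    · simp
    · rw [ArithmeticFunction.liouville_apply hn]
      simp
  · simp [ArithmeticFunction.liouville_apply_one]

end Pool.Agent.Results.MP_69dca4_nt.NeverFlat
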